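import Pool.Agent.helper55.FLD.Spec

/-!
# FLD, row RE: realisation of tangent vectors
-/

set_option autoImplicit false

namespace Pool.Agent.FLD

open Matrix Topology Filter Pool.Agent.GO Pool.Agent.AR

/-- row RE -/
theorem RE (h1 : LG_stmt) (h2 : RT_stmt) : RE_stmt := by
  intro p _ B _ _ _ _ _ _ R hL G _ _ _ _ Φ hΦ hΦ2
  obtain ⟨j₀, hj, hroot⟩ := h2 p B R hL G Φ hΦ hΦ2
  obtain ⟨l1, l2, l3, l4, l5⟩ := h1 p B R hL
  refine ⟨j₀, hj, fun Z hZ => ?_, fun i g hg => ?_⟩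
  · obtain ⟨hZR, hZ2⟩ := hZ
    let E : ℕ → Set G := fun l =>
      {h | Dv p R (2 * l + 3) ((Φ h) ^ p ^ l - 1 - ((p : ℚ_[p]) ^ l) • (((p : ℚ_[p]) ^ j₀) • Z))}
    have hclosed : ∀ l, IsClosed (E l) := fun l =>
      (hL.isClosed_dv (2 * l + 3)).preimage
        (((hΦ.pow (p ^ l)).sub continuous_const).sub continuous_const)
    have hdec : ∀ l, E (l + 1) ⊆ E l := fun l h hh => l1 l (Φ h) _ (hΦ2 h) hh
    have hne : ∀ l, (E l).Nonempty := by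
      intro l
      obtain ⟨g, hg⟩ := hZ2 (l + j₀) (by omega)
      have h3 : Dv p R (l + j₀) (((p : ℚ_[p]) ^ (l + j₀)) • Z) := ⟨Z, hZR, rfl⟩
      have h4 : Dv p R (l + j₀) (Φ g - 1) := by
        have h5 := (hg.mono (show l + j₀ ≤ 2 * (l + j₀) by omega)).add h3
        rwa [sub_add_cancel] at h5
      obtain ⟨h, -, hh⟩ := hroot l g (by rwa [add_comm] at h4)
      refine ⟨h, ?_⟩
      show Dv p R (2 * l + 3) ((Φ h) ^ p ^ l - 1 -
        ((p : ℚ_[p]) ^ l) • (((p : ℚ_[p]) ^ j₀) • Z))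
      rw [hh, smul_smul, ← pow_add]
      exact hg.mono (by omega)
    obtain ⟨h, hh⟩ := IsCompact.nonempty_iInter_of_sequence_nonempty_isCompact_isClosed E
      hdec hne (hclosed 0).isCompact hclosed
    rw [Set.mem_iInter] at hh
    exact ⟨h, fun l => hh l⟩
  · obtain ⟨h, -, hh⟩ := hroot i g hg
    obtain ⟨Z, hZR, hZ⟩ := l2 (Φ h) (hΦ2 h)
    refine ⟨Z, ⟨hZR, fun l _ => ⟨h ^ p ^ l, ?_⟩⟩, ?_⟩
    · rw [map_pow]
      exact (hZ l).mono (by omega)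
    · have h3 := l4 i (Φ h) Z hZ
      rwa [hh] at h3

end Pool.Agent.FLD
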